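import Mathlib

set_option autoImplicit false

/-!
# A shift operator with the shadowing property which is not generalized hyperbolic

Let `p : E → F` be a bounded surjection of Banach spaces whose kernel `U` is not complemented (for
instance `ℓ^∞ → ℓ^∞ / c_0`, by Phillips' theorem, proved below).  Let `B` be the Banach space of
all bilateral sequences `(x_n)` in `E` with
`sup_n max (2 ^ (-|n|) * ‖x_n‖, 2 ^ n * ‖p x_n‖) < ∞`
and let `σ` be the shift `(x_n) ↦ (x_{n+1})` on `B` (all the `S_n` are the identity).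

* Every `x ∈ B` splits, with uniform bounds but not linearly, as `x = m + u` with
  `‖σ^j m‖ ≤ K 2^{-j} ‖x‖` and `‖σ^{-j} u‖ ≤ K 2^{-j} ‖x‖` for all `j ≥ 0`: put `m_n = g (p x_n)` for
  `n ≥ 0` (`g` a bounded, nonlinear right inverse of `p`) and `m_n = x_n` for `n < 0`.
  Hence `σ` has the shadowing property.
* If `σ` were generalized hyperbolic then `σ - 1` would have a bounded linear right inverse `R`;
  applying `R` to sequences supported at a single far site `k` produces operators `E → U` close to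
  the identity on `U`, so `U` would be complemented.
-/

open Filter Topology BoundedContinuousFunction

namespace Pool.Agent.Results.MP_0764b2_an.ShadowingNotGH

section Defs

variable {𝕜 : Type*} [RCLike 𝕜] {Y : Type*} [NormedAddCommGroup Y] [NormedSpace 𝕜 Y]

/-- The shadowing property of a bounded invertible linear operator. -/
def HasShadowing (T : Y ≃L[𝕜] Y) : Prop :=
  ∃ K : ℝ, 0 < K ∧ ∀ z : ℤ → Y, BddAbove (Set.range fun n => ‖z n‖) →
    ∃ y : ℤ → Y, BddAbove (Set.range fun n => ‖y n‖) ∧ (∀ n, y (n + 1) - T (y n) = z n) ∧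
      (⨆ n, ‖y n‖) ≤ K * ⨆ n, ‖z n‖

/-- `A` has spectral radius `< 1`; here the spectral radius is the number `lim ‖A ^ n‖ ^ (1 / n)`
(Gelfand's formula; this is the usual definition for real scalars too). -/
def SpectralRadiusLTOne (A : Y →L[𝕜] Y) : Prop :=
  ∃ r : ℝ, r < 1 ∧ Tendsto (fun n : ℕ => ‖A ^ n‖ ^ (1 / n : ℝ)) atTop (𝓝 r)

/-- Generalized hyperbolicity of a bounded invertible linear operator `T`: `Y = M ⊕ N` with `M, N`
closed, `T M ⊆ M`, `T⁻¹ N ⊆ N`, and `T|_M`, `T⁻¹|_N` have spectral radius `< 1`. -/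
def GeneralizedHyperbolic (T : Y ≃L[𝕜] Y) : Prop :=
  ∃ M N : Submodule 𝕜 Y, IsClosed (M : Set Y) ∧ IsClosed (N : Set Y) ∧ IsCompl M N ∧
    ∃ (A : M →L[𝕜] M) (C : N →L[𝕜] N), (∀ x : M, (A x : Y) = T x) ∧
      (∀ x : N, (C x : Y) = T.symm x) ∧ SpectralRadiusLTOne A ∧ SpectralRadiusLTOne C

/-- A shift operator `σ_S : B → B`: `B` is a normed space of bilateral `X`-valued sequences
(the injective linear map `seq` identifies the elements of `B` with sequences), `S n` are invertible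
operators on `X` with uniformly bounded norms and inverses, and `σ` is a bounded
invertible operator on `B` with `σ (x_n)_n = (S_{n+1} x_{n+1})_n`. -/
structure ShiftOperator (𝕜 : Type*) [RCLike 𝕜] (X : Type*) [NormedAddCommGroup X]
    [NormedSpace 𝕜 X] (B : Type*) [NormedAddCommGroup B] [NormedSpace 𝕜 B] where
  S : ℤ → X ≃L[𝕜] X
  S_bound : ∃ C : ℝ, ∀ n, ‖(S n : X →L[𝕜] X)‖ ≤ C ∧ ‖((S n).symm : X →L[𝕜] X)‖ ≤ C
  seq : B →ₗ[𝕜] (ℤ → X)
  seq_injective : Function.Injective seq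
  σ : B ≃L[𝕜] B
  σ_apply : ∀ (b : B) (n : ℤ), seq (σ b) n = S (n + 1) (seq b (n + 1))

end Defs

/-- Sanity check: over `ℂ`, the condition `SpectralRadiusLTOne` says that Mathlib's
`spectralRadius` is `< 1`. -/
lemma spectralRadiusLTOne_iff {Y : Type*} [NormedAddCommGroup Y] [NormedSpace ℂ Y]
    [CompleteSpace Y] (A : Y →L[ℂ] Y) : SpectralRadiusLTOne A ↔ spectralRadius ℂ A < 1 := by
  have hG := spectrum.pow_norm_pow_one_div_tendsto_nhds_spectralRadius A
  constructor
  · rintro ⟨r, hr, hlim⟩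
    have h1 := (ENNReal.continuous_ofReal.tendsto r).comp hlim
    have h2 := tendsto_nhds_unique hG h1
    rw [h2, ← ENNReal.ofReal_one]
    exact (ENNReal.ofReal_lt_ofReal_iff one_pos).mpr hr
  · intro h
    have hne : spectralRadius ℂ A ≠ ⊤ := ne_top_of_lt h
    refine ⟨(spectralRadius ℂ A).toReal, ?_, ?_⟩
    · have := (ENNReal.toReal_lt_toReal hne ENNReal.one_ne_top).mpr h
      simpa using this
    · have h1 := (ENNReal.tendsto_toReal hne).comp hG
      refine h1.congr fun n => ?_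
      simp only [Function.comp_apply]
      rw [ENNReal.toReal_ofReal (by positivity)]

section Abstract

variable {𝕜 : Type*} [RCLike 𝕜] {Y : Type*} [NormedAddCommGroup Y] [NormedSpace 𝕜 Y]

/-- If `A` has spectral radius `< 1` then `1 - A` is invertible. -/
lemma isUnit_one_sub [CompleteSpace Y] (A : Y →L[𝕜] Y) (hA : SpectralRadiusLTOne A) :
    IsUnit (1 - A) := by
  obtain ⟨r, hr, hlim⟩ := hA
  -- some power has norm `< 1`
  obtain ⟨k, hk, hk0⟩ : ∃ k : ℕ, ‖A ^ k‖ < 1 ∧ 0 < k := by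
    have h1 := hlim.eventually (gt_mem_nhds hr)
    obtain ⟨k, hk, hk0⟩ := (h1.and (eventually_gt_atTop 0)).exists
    refine ⟨k, ?_, hk0⟩
    by_contra hcon
    push Not at hcon
    have : (1 : ℝ) ≤ ‖A ^ k‖ ^ (1 / k : ℝ) := Real.one_le_rpow hcon (by positivity)
    linarith
  have hu : IsUnit (1 - A ^ k) := (Units.oneSub (A ^ k) hk).isUnit
  have hfac : 1 - A ^ k = (1 - A) * ∑ i ∈ Finset.range k, A ^ i := by
    rw [mul_neg_geom_sum]
  have hcomm : Commute (1 - A) (∑ i ∈ Finset.range k, A ^ i) := by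
    apply Commute.sum_right
    intro i _
    exact (Commute.one_left _).sub_left ((Commute.refl A).pow_right i)
  rw [hfac, hcomm.isUnit_mul_iff] at hu
  exact hu.1

/-- For a generalized hyperbolic operator `T`, the operator `T - 1` has a bounded right inverse. -/
lemma exists_right_inverse [CompleteSpace Y] (T : Y ≃L[𝕜] Y) (hT : GeneralizedHyperbolic T) :
    ∃ R : Y →L[𝕜] Y, ∀ y, T (R y) - R y = y := by
  obtain ⟨M, N, hM, hN, hMN, A, C, hA, hC, hrA, hrC⟩ := hT
  have : CompleteSpace M := hM.completeSpace_coe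
  have : CompleteSpace N := hN.completeSpace_coe
  obtain ⟨uA, huA⟩ := isUnit_one_sub A hrA
  obtain ⟨uC, huC⟩ := isUnit_one_sub C hrC
  set e := Submodule.prodEquivOfIsTopCompl M N (Submodule.isTopCompl_iff_isCompl_isClosed.mpr ⟨hMN, hM, hN⟩) with he
  set IA : M →L[𝕜] M := ((uA⁻¹ : (M →L[𝕜] M)ˣ) : M →L[𝕜] M) with hIA
  set IC : N →L[𝕜] N := ((uC⁻¹ : (N →L[𝕜] N)ˣ) : N →L[𝕜] N) with hIC
  have hAinv : ∀ m : M, IA m - A (IA m) = m := by
    intro m
    have h : (uA : M →L[𝕜] M) * IA = 1 := uA.mul_inv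
    have h2 := congrArg (fun L : M →L[𝕜] M => L m) h
    rw [huA] at h2
    simpa [sub_mul] using h2
  have hCinv : ∀ m : N, IC m - C (IC m) = m := by
    intro m
    have h : (uC : N →L[𝕜] N) * IC = 1 := uC.mul_inv
    have h2 := congrArg (fun L : N →L[𝕜] N => L m) h
    rw [huC] at h2
    simpa [sub_mul] using h2
  refine ⟨-(M.subtypeL.comp (IA.comp ((ContinuousLinearMap.fst 𝕜 M N).comp
      (e.symm : Y →L[𝕜] M × N)))) + (N.subtypeL.comp ((IC.comp C).comp
      ((ContinuousLinearMap.snd 𝕜 M N).comp (e.symm : Y →L[𝕜] M × N)))), ?_⟩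
  intro y
  obtain ⟨m, n, rfl⟩ : ∃ (m : M) (n : N), e (m, n) = y :=
    ⟨(e.symm y).1, (e.symm y).2, by simp⟩
  have hemn : e (m, n) = (m : Y) + n := rfl
  have h1 : (-(M.subtypeL.comp (IA.comp ((ContinuousLinearMap.fst 𝕜 M N).comp
      (e.symm : Y →L[𝕜] M × N)))) + (N.subtypeL.comp ((IC.comp C).comp
      ((ContinuousLinearMap.snd 𝕜 M N).comp (e.symm : Y →L[𝕜] M × N))))) (e (m, n))
      = -((IA m : M) : Y) + ((IC (C n) : N) : Y) := by
    simp
  rw [h1, map_add, map_neg, hemn]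
  have h2 : T ((IA m : M) : Y) = ((A (IA m) : M) : Y) := (hA _).symm
  have h3 : ((IA m : M) : Y) - ((A (IA m) : M) : Y) = (m : Y) := by
    rw [← Submodule.coe_sub, hAinv]
  have h4 : T (((IC (C n) : N) : Y) - ((C (IC (C n)) : N) : Y)) = (n : Y) := by
    rw [← Submodule.coe_sub, hCinv, hC, ContinuousLinearEquiv.apply_symm_apply]
  have h5 : T ((C (IC (C n)) : N) : Y) = ((IC (C n) : N) : Y) := by
    rw [hC, ContinuousLinearEquiv.apply_symm_apply]
  rw [map_sub, h5] at h4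
  rw [h2, ← h3, ← h4]
  abel

/-- If every vector splits boundedly into a part exponentially contracted by the powers of `T` and
a part exponentially contracted by the powers of `T⁻¹`, then `T` has the shadowing property. The
splitting is not required to be linear. -/
lemma hasShadowing_of_split [CompleteSpace Y] (T : Y ≃L[𝕜] Y) (K : ℝ) (hK : 0 < K)
    (h : ∀ z : Y, ∃ m u : Y, z = m + u ∧ (∀ j : ℕ, ‖(⇑T)^[j] m‖ ≤ K * (1 / 2) ^ j * ‖z‖) ∧
      (∀ j : ℕ, ‖(⇑T.symm)^[j] u‖ ≤ K * (1 / 2) ^ j * ‖z‖)) : HasShadowing T := by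
  choose m u hz hm hu using h
  refine ⟨4 * K, by positivity, ?_⟩
  intro z hzb
  set C : ℝ := ⨆ n, ‖z n‖ with hC
  have hzC : ∀ n, ‖z n‖ ≤ C := fun n => le_ciSup hzb n
  have hC0 : 0 ≤ C := (norm_nonneg _).trans (hzC 0)
  have hgeom : HasSum (fun j : ℕ => K * C * (1 / 2 : ℝ) ^ j) (K * C * 2) :=
    hasSum_geometric_two.mul_left _
  -- the two series
  have hb1 : ∀ (n : ℤ) (j : ℕ), ‖(⇑T)^[j] (m (z (n - 1 - j)))‖ ≤ K * C * (1 / 2 : ℝ) ^ j := by
    intro n j
    calc _ ≤ K * (1 / 2) ^ j * ‖z (n - 1 - j)‖ := hm _ j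
      _ ≤ K * (1 / 2) ^ j * C := by gcongr; exact hzC _
      _ = _ := by ring
  have hb2 : ∀ (n : ℤ) (j : ℕ), ‖(⇑T.symm)^[j + 1] (u (z (n + j)))‖
      ≤ K * C * (1 / 2 : ℝ) ^ j := by
    intro n j
    calc _ ≤ K * (1 / 2) ^ (j + 1) * ‖z (n + j)‖ := hu _ (j + 1)
      _ ≤ K * (1 / 2) ^ j * C := by
          have : (1 / 2 : ℝ) ^ (j + 1) ≤ (1 / 2) ^ j :=
            pow_le_pow_of_le_one (by norm_num) (by norm_num) (by omega)
          gcongr
          exact hzC _
      _ = _ := by ring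
  have hs1 : ∀ n : ℤ, Summable (fun j : ℕ => (⇑T)^[j] (m (z (n - 1 - j)))) := fun n =>
    Summable.of_norm_bounded hgeom.summable (hb1 n)
  have hs2 : ∀ n : ℤ, Summable (fun j : ℕ => (⇑T.symm)^[j + 1] (u (z (n + j)))) := fun n =>
    Summable.of_norm_bounded hgeom.summable (hb2 n)
  set a : ℤ → Y := fun n => ∑' j : ℕ, (⇑T)^[j] (m (z (n - 1 - j))) with ha
  set b : ℤ → Y := fun n => ∑' j : ℕ, (⇑T.symm)^[j + 1] (u (z (n + j))) with hb
  have hna : ∀ n, ‖a n‖ ≤ K * C * 2 := fun n => tsum_of_norm_bounded hgeom (hb1 n)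
  have hnb : ∀ n, ‖b n‖ ≤ K * C * 2 := fun n => tsum_of_norm_bounded hgeom (hb2 n)
  -- recursions
  have hra : ∀ n, a (n + 1) = m (z n) + T (a n) := by
    intro n
    have h1 : a (n + 1) = (⇑T)^[0] (m (z (n + 1 - 1 - (0 : ℕ))))
        + ∑' j : ℕ, (⇑T)^[j + 1] (m (z (n + 1 - 1 - ((j + 1 : ℕ) : ℤ)))) :=
      (hs1 (n + 1)).tsum_eq_zero_add
    rw [h1]
    congr 1
    · simp
    · rw [ha]
      simp only
      rw [T.map_tsum]
      refine tsum_congr fun j => ?_
      rw [Function.iterate_succ_apply']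
      congr 4
      push_cast
      ring
  have hrb : ∀ n, T (b n) = u (z n) + b (n + 1) := by
    intro n
    have h0 : T (b n) = ∑' j : ℕ, (⇑T.symm)^[j] (u (z (n + j))) := by
      rw [hb]
      simp only
      rw [T.map_tsum]
      refine tsum_congr fun j => ?_
      rw [Function.iterate_succ_apply', ContinuousLinearEquiv.apply_symm_apply]
    have hs3 : Summable (fun j : ℕ => (⇑T.symm)^[j] (u (z (n + j)))) := by
      have := (T : Y →L[𝕜] Y).summable (hs2 n)
      refine this.congr fun j => ?_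
      simp only [ContinuousLinearEquiv.coe_coe]
      rw [Function.iterate_succ_apply', ContinuousLinearEquiv.apply_symm_apply]
    rw [h0, hs3.tsum_eq_zero_add]
    congr 1
    · simp
    · rw [hb]
      simp only
      refine tsum_congr fun j => ?_
      congr 3
      push_cast
      ring
  refine ⟨fun n => a n - b n, ?_, ?_, ?_⟩
  · refine ⟨K * C * 2 + K * C * 2, ?_⟩
    rintro _ ⟨n, rfl⟩
    exact (norm_sub_le _ _).trans (add_le_add (hna n) (hnb n))
  · intro n
    simp only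
    rw [map_sub, hra n, hrb n]
    conv_rhs => rw [hz (z n)]
    abel
  · apply ciSup_le
    intro n
    refine (norm_sub_le _ _).trans ?_
    have := add_le_add (hna n) (hnb n)
    linarith

end Abstract


section Construction

/-- The weights `2 ^ (-|n|)`. -/
noncomputable def ρ (n : ℤ) : ℝ := (2 : ℝ) ^ (-|n|)

/-- The weights `2 ^ n`. -/
noncomputable def τ (n : ℤ) : ℝ := (2 : ℝ) ^ n

lemma ρ_pos (n : ℤ) : 0 < ρ n := by unfold ρ; positivity
lemma τ_pos (n : ℤ) : 0 < τ n := by unfold τ; positivity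

lemma ρ_div_le (n k : ℤ) : ρ n / ρ (n + k) ≤ (2 : ℝ) ^ |k| := by
  unfold ρ
  rw [← zpow_sub₀ (by norm_num)]
  apply zpow_le_zpow_right₀ (by norm_num)
  have := abs_add_le n k
  linarith

lemma τ_div_le (n k : ℤ) : τ n / τ (n + k) ≤ (2 : ℝ) ^ |k| := by
  unfold τ
  rw [← zpow_sub₀ (by norm_num)]
  apply zpow_le_zpow_right₀ (by norm_num)
  have := neg_abs_le k
  linarith

variable {𝕜 : Type*} [RCLike 𝕜] {E : Type*} [NormedAddCommGroup E] [NormedSpace 𝕜 E]
  {F : Type*} [NormedAddCommGroup F] [NormedSpace 𝕜 F]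

/-- Weighted translation on bounded bilateral sequences. -/
noncomputable def wshift (𝕜 : Type*) [RCLike 𝕜] (E : Type*) [NormedAddCommGroup E]
    [NormedSpace 𝕜 E] (c : ℤ → ℝ) (C : ℝ) (hc : ∀ n, 0 ≤ c n) (hC : ∀ n, c n ≤ C) (k : ℤ) :
    (ℤ →ᵇ E) →L[𝕜] (ℤ →ᵇ E) :=
  LinearMap.mkContinuous
    { toFun := fun a => BoundedContinuousFunction.ofNormedAddCommGroup
        (fun n => ((c n : ℝ) : 𝕜) • a (n + k)) continuous_of_discreteTopology (C * ‖a‖)
        (fun n => by
          rw [norm_smul, RCLike.norm_ofReal, abs_of_nonneg (hc n)]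
          exact mul_le_mul (hC n) (a.norm_coe_le_norm _) (norm_nonneg _) ((hc n).trans (hC n)))
      map_add' := fun a b => by ext n; exact smul_add _ _ _
      map_smul' := fun r a => by ext n; exact smul_comm _ _ _ }
    C (fun a => by
      have hC0 : 0 ≤ C := (hc 0).trans (hC 0)
      rw [BoundedContinuousFunction.norm_le (by positivity)]
      intro n
      change ‖((c n : ℝ) : 𝕜) • a (n + k)‖ ≤ _
      rw [norm_smul, RCLike.norm_ofReal, abs_of_nonneg (hc n)]
      exact mul_le_mul (hC n) (a.norm_coe_le_norm _) (norm_nonneg _) hC0)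

lemma wshift_apply (c : ℤ → ℝ) (C : ℝ) (hc : ∀ n, 0 ≤ c n) (hC : ∀ n, c n ≤ C) (k : ℤ)
    (a : ℤ →ᵇ E) (n : ℤ) : wshift 𝕜 E c C hc hC k a n = ((c n : ℝ) : 𝕜) • a (n + k) := rfl

/-- The Banach space `B`, as a closed subspace of `ℓ^∞(ℤ, E) × ℓ^∞(ℤ, F)`; the sequence `(x n)`
corresponds to the pair `(ρ n • x n, τ n • p (x n))`. -/
def B (p : E →L[𝕜] F) : Submodule 𝕜 ((ℤ →ᵇ E) × (ℤ →ᵇ F)) where
  carrier := {q | ∀ n, q.2 n = ((τ n / ρ n : ℝ) : 𝕜) • p (q.1 n)}
  add_mem' := by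
    intro a b ha hb n
    simp only [Prod.snd_add, Prod.fst_add, BoundedContinuousFunction.coe_add, Pi.add_apply,
      map_add, smul_add, ha n, hb n]
  zero_mem' := by intro n; simp
  smul_mem' := by
    intro c a ha n
    simp only [Prod.smul_snd, Prod.smul_fst, BoundedContinuousFunction.coe_smul, map_smul, ha n]
    rw [smul_comm]

lemma isClosed_B (p : E →L[𝕜] F) : IsClosed (B p : Set ((ℤ →ᵇ E) × (ℤ →ᵇ F))) := by
  have : (B p : Set ((ℤ →ᵇ E) × (ℤ →ᵇ F)))
      = ⋂ n : ℤ, {q | q.2 n = ((τ n / ρ n : ℝ) : 𝕜) • p (q.1 n)} := by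
    ext q; simp [B]
  rw [this]
  refine isClosed_iInter fun n => isClosed_eq ?_ ?_
  · exact (continuous_eval_const n).comp continuous_snd
  · exact (p.continuous.comp
      ((continuous_eval_const n).comp continuous_fst)).const_smul _

/-- The sequence represented by an element of `B`. -/
noncomputable def seq (p : E →L[𝕜] F) : B p →ₗ[𝕜] (ℤ → E) where
  toFun := fun b n => (((ρ n)⁻¹ : ℝ) : 𝕜) • (b : (ℤ →ᵇ E) × (ℤ →ᵇ F)).1 n
  map_add' := fun a b => by ext n; exact smul_add _ _ _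
  map_smul' := fun c a => by ext n; exact smul_comm _ _ _

lemma seq_apply (p : E →L[𝕜] F) (b : B p) (n : ℤ) :
    seq p b n = (((ρ n)⁻¹ : ℝ) : 𝕜) • (b : (ℤ →ᵇ E) × (ℤ →ᵇ F)).1 n := rfl

lemma fst_eq (p : E →L[𝕜] F) (b : B p) (n : ℤ) :
    (b : (ℤ →ᵇ E) × (ℤ →ᵇ F)).1 n = ((ρ n : ℝ) : 𝕜) • seq p b n := by
  rw [seq_apply, smul_smul, ← RCLike.ofReal_mul, mul_inv_cancel₀ (ρ_pos n).ne',
    RCLike.ofReal_one, one_smul]

lemma snd_eq (p : E →L[𝕜] F) (b : B p) (n : ℤ) :
    (b : (ℤ →ᵇ E) × (ℤ →ᵇ F)).2 n = ((τ n : ℝ) : 𝕜) • p (seq p b n) := by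
  rw [b.2 n, fst_eq, map_smul, smul_smul, ← RCLike.ofReal_mul, div_mul_cancel₀ _ (ρ_pos n).ne']

lemma seq_injective (p : E →L[𝕜] F) : Function.Injective (seq p) := by
  intro a b hab
  apply Subtype.ext
  apply Prod.ext
  · ext n
    rw [fst_eq, fst_eq, hab]
  · ext n
    rw [snd_eq, snd_eq, hab]

lemma norm_seq_le (p : E →L[𝕜] F) (b : B p) (n : ℤ) : ρ n * ‖seq p b n‖ ≤ ‖b‖ := by
  have h1 : ρ n * ‖seq p b n‖ = ‖(b : (ℤ →ᵇ E) × (ℤ →ᵇ F)).1 n‖ := by
    rw [fst_eq, norm_smul, RCLike.norm_ofReal, abs_of_pos (ρ_pos n)]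
  rw [h1]
  exact (BoundedContinuousFunction.norm_coe_le_norm _ n).trans (norm_fst_le _)

lemma norm_p_seq_le (p : E →L[𝕜] F) (b : B p) (n : ℤ) : τ n * ‖p (seq p b n)‖ ≤ ‖b‖ := by
  have h1 : τ n * ‖p (seq p b n)‖ = ‖(b : (ℤ →ᵇ E) × (ℤ →ᵇ F)).2 n‖ := by
    rw [snd_eq, norm_smul, RCLike.norm_ofReal, abs_of_pos (τ_pos n)]
  rw [h1]
  exact (BoundedContinuousFunction.norm_coe_le_norm _ n).trans (norm_snd_le _)

lemma norm_le_of (p : E →L[𝕜] F) (b : B p) (C : ℝ) (hC : 0 ≤ C)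
    (h1 : ∀ n, ρ n * ‖seq p b n‖ ≤ C) (h2 : ∀ n, τ n * ‖p (seq p b n)‖ ≤ C) : ‖b‖ ≤ C := by
  have : ‖b‖ = ‖(b : (ℤ →ᵇ E) × (ℤ →ᵇ F))‖ := rfl
  rw [this, Prod.norm_def]
  apply max_le
  · rw [BoundedContinuousFunction.norm_le hC]
    intro n
    rw [fst_eq, norm_smul, RCLike.norm_ofReal, abs_of_pos (ρ_pos n)]
    exact h1 n
  · rw [BoundedContinuousFunction.norm_le hC]
    intro n
    rw [snd_eq, norm_smul, RCLike.norm_ofReal, abs_of_pos (τ_pos n)]
    exact h2 n

lemma exists_ofSeq (p : E →L[𝕜] F) (x : ℤ → E) (C : ℝ)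
    (h1 : ∀ n, ρ n * ‖x n‖ ≤ C) (h2 : ∀ n, τ n * ‖p (x n)‖ ≤ C) : ∃ b : B p, seq p b = x := by
  refine ⟨⟨(BoundedContinuousFunction.ofNormedAddCommGroup (fun n => ((ρ n : ℝ) : 𝕜) • x n)
      continuous_of_discreteTopology C (fun n => ?_),
    BoundedContinuousFunction.ofNormedAddCommGroup (fun n => ((τ n : ℝ) : 𝕜) • p (x n))
      continuous_of_discreteTopology C (fun n => ?_)), ?_⟩, ?_⟩
  · rw [norm_smul, RCLike.norm_ofReal, abs_of_pos (ρ_pos n)]
    exact h1 n
  · rw [norm_smul, RCLike.norm_ofReal, abs_of_pos (τ_pos n)]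
    exact h2 n
  · intro n
    simp only [BoundedContinuousFunction.coe_ofNormedAddCommGroup]
    rw [map_smul, smul_smul, ← RCLike.ofReal_mul, div_mul_cancel₀ _ (ρ_pos n).ne']
  · ext n
    rw [seq_apply]
    simp only [BoundedContinuousFunction.coe_ofNormedAddCommGroup]
    rw [smul_smul, ← RCLike.ofReal_mul, inv_mul_cancel₀ (ρ_pos n).ne', RCLike.ofReal_one, one_smul]

/-- Weighted translation on the first component. -/
noncomputable def wE (𝕜 : Type*) [RCLike 𝕜] (E : Type*) [NormedAddCommGroup E]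
    [NormedSpace 𝕜 E] (k : ℤ) : (ℤ →ᵇ E) →L[𝕜] (ℤ →ᵇ E) :=
  wshift 𝕜 E (fun n => ρ n / ρ (n + k)) (2 ^ |k|)
    (fun n => (div_pos (ρ_pos _) (ρ_pos _)).le) (fun n => ρ_div_le n k) k

/-- Weighted translation on the second component. -/
noncomputable def wF (𝕜 : Type*) [RCLike 𝕜] (F : Type*) [NormedAddCommGroup F]
    [NormedSpace 𝕜 F] (k : ℤ) : (ℤ →ᵇ F) →L[𝕜] (ℤ →ᵇ F) :=
  wshift 𝕜 F (fun n => τ n / τ (n + k)) (2 ^ |k|)
    (fun n => (div_pos (τ_pos _) (τ_pos _)).le) (fun n => τ_div_le n k) k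

lemma wE_apply (k : ℤ) (a : ℤ →ᵇ E) (n : ℤ) :
    wE 𝕜 E k a n = ((ρ n / ρ (n + k) : ℝ) : 𝕜) • a (n + k) := rfl

lemma wF_apply (k : ℤ) (a : ℤ →ᵇ F) (n : ℤ) :
    wF 𝕜 F k a n = ((τ n / τ (n + k) : ℝ) : 𝕜) • a (n + k) := rfl

/-- Translation by `k` on `B`. -/
noncomputable def sh (p : E →L[𝕜] F) (k : ℤ) : B p →L[𝕜] B p :=
  ContinuousLinearMap.codRestrict (((wE 𝕜 E k).prodMap (wF 𝕜 F k)).comp (B p).subtypeL) (B p) (by
      intro b n
      change wF 𝕜 F k (b : (ℤ →ᵇ E) × (ℤ →ᵇ F)).2 n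
        = ((τ n / ρ n : ℝ) : 𝕜) • p (wE 𝕜 E k (b : (ℤ →ᵇ E) × (ℤ →ᵇ F)).1 n)
      rw [wE_apply, wF_apply, fst_eq, snd_eq, map_smul, map_smul, smul_smul, smul_smul,
        smul_smul, ← RCLike.ofReal_mul, ← RCLike.ofReal_mul, ← RCLike.ofReal_mul]
      congr 2
      have h1 := (ρ_pos n).ne'
      have h2 := (ρ_pos (n + k)).ne'
      have h3 := (τ_pos (n + k)).ne'
      field_simp)

lemma seq_sh (p : E →L[𝕜] F) (k : ℤ) (b : B p) (n : ℤ) : seq p (sh p k b) n = seq p b (n + k) := by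
  rw [seq_apply]
  change (((ρ n)⁻¹ : ℝ) : 𝕜) • wE 𝕜 E k (b : (ℤ →ᵇ E) × (ℤ →ᵇ F)).1 n = _
  rw [wE_apply, fst_eq, smul_smul, smul_smul, ← RCLike.ofReal_mul, ← RCLike.ofReal_mul]
  have h1 := (ρ_pos n).ne'
  have h2 := (ρ_pos (n + k)).ne'
  have : (ρ n)⁻¹ * (ρ n / ρ (n + k)) * ρ (n + k) = 1 := by field_simp
  rw [this, RCLike.ofReal_one, one_smul]

/-- The shift operator on `B`. -/
noncomputable def shiftEquiv (p : E →L[𝕜] F) : B p ≃L[𝕜] B p :=
  ContinuousLinearEquiv.equivOfInverse (sh p 1) (sh p (-1))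
    (fun b => by
      apply seq_injective p
      ext n
      rw [seq_sh, seq_sh]
      simp)
    (fun b => by
      apply seq_injective p
      ext n
      rw [seq_sh, seq_sh]
      simp)

lemma seq_shiftEquiv (p : E →L[𝕜] F) (b : B p) (n : ℤ) :
    seq p (shiftEquiv p b) n = seq p b (n + 1) := seq_sh p 1 b n

lemma seq_shiftEquiv_symm (p : E →L[𝕜] F) (b : B p) (n : ℤ) :
    seq p ((shiftEquiv p).symm b) n = seq p b (n - 1) := seq_sh p (-1) b n

lemma seq_iterate (p : E →L[𝕜] F) (b : B p) (j : ℕ) (n : ℤ) :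
    seq p ((⇑(shiftEquiv p))^[j] b) n = seq p b (n + j) := by
  induction j generalizing n with
  | zero => simp
  | succ j ih =>
    rw [Function.iterate_succ_apply', seq_shiftEquiv, ih,
      show n + 1 + (j : ℤ) = n + ((j + 1 : ℕ) : ℤ) by push_cast; ring]

lemma seq_iterate_symm (p : E →L[𝕜] F) (b : B p) (j : ℕ) (n : ℤ) :
    seq p ((⇑(shiftEquiv p).symm)^[j] b) n = seq p b (n - j) := by
  induction j generalizing n with
  | zero => simp
  | succ j ih =>
    rw [Function.iterate_succ_apply', seq_shiftEquiv_symm, ih,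
      show n - 1 - (j : ℤ) = n - ((j + 1 : ℕ) : ℤ) by push_cast; ring]

/-- The shift operator has the shadowing property. -/
lemma hasShadowing_shift [CompleteSpace E] [CompleteSpace F] (p : E →L[𝕜] F)
    (hp : Function.Surjective p) : HasShadowing (shiftEquiv p) := by
  have : CompleteSpace (B p) := (isClosed_B p).completeSpace_coe
  obtain ⟨D, hD, hsec⟩ := p.exists_preimage_norm_le hp
  choose g hg1 hg2 using hsec
  apply hasShadowing_of_split (shiftEquiv p) (1 + D) (by positivity)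
  intro z
  set x := seq p z with hx
  have hx1 : ∀ n, ρ n * ‖x n‖ ≤ ‖z‖ := norm_seq_le p z
  have hx2 : ∀ n, τ n * ‖p (x n)‖ ≤ ‖z‖ := norm_p_seq_le p z
  have hx1' : ∀ n, ‖x n‖ ≤ (2 : ℝ) ^ |n| * ‖z‖ := by
    intro n
    have := hx1 n
    unfold ρ at this
    rw [zpow_neg, inv_mul_le_iff₀ (by positivity)] at this
    exact this
  have hx2' : ∀ n, ‖p (x n)‖ ≤ (2 : ℝ) ^ (-n) * ‖z‖ := by
    intro n
    have := hx2 n
    unfold τ at this
    rw [zpow_neg]
    rw [mul_comm] at this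
    rw [inv_mul_eq_div, le_div_iff₀ (by positivity)]
    exact this
  have hzz : 0 ≤ ‖z‖ := norm_nonneg z
  -- exponent bookkeeping
  have e1 : ∀ (n : ℤ) (a b c : ℤ), a + b ≤ c → (2 : ℝ) ^ a * (2 ^ b * ‖z‖) ≤ 2 ^ c * ‖z‖ := by
    intro n a b c h
    rw [← mul_assoc, ← zpow_add₀ (by norm_num)]
    have : (2 : ℝ) ^ (a + b) ≤ 2 ^ c := zpow_le_zpow_right₀ (by norm_num) h
    gcongr
  have e2 : ∀ j : ℕ, (2 : ℝ) ^ (-(j : ℤ)) = (1 / 2 : ℝ) ^ j := by
    intro j
    rw [zpow_neg, zpow_natCast, one_div, inv_pow]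
  set xm : ℤ → E := fun n => if 0 ≤ n then g (p (x n)) else x n with hxm
  set xu : ℤ → E := fun n => if 0 ≤ n then x n - g (p (x n)) else 0 with hxu
  -- main estimates
  have hm1 : ∀ (j : ℕ) (n : ℤ), ρ n * ‖xm (n + j)‖ ≤ (1 + D) * (1 / 2) ^ j * ‖z‖ := by
    intro j n
    have hj : (0 : ℤ) ≤ j := Int.natCast_nonneg j
    rw [← e2, hxm]
    simp only
    split_ifs with h
    · calc ρ n * ‖g (p (x (n + j)))‖ ≤ ρ n * (D * ((2 : ℝ) ^ (-(n + j)) * ‖z‖)) := by
            have := (ρ_pos n).le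
            gcongr
            exact (hg2 _).trans (by gcongr; exact hx2' _)
        _ = D * ((2 : ℝ) ^ (-|n|) * (2 ^ (-(n + j)) * ‖z‖)) := by unfold ρ; ring
        _ ≤ D * (2 ^ (-(j : ℤ)) * ‖z‖) := by
            refine mul_le_mul_of_nonneg_left (e1 n _ _ _ ?_) hD.le
            have := neg_abs_le n
            linarith
        _ ≤ (1 + D) * 2 ^ (-(j : ℤ)) * ‖z‖ := by
            have : 0 ≤ (2 : ℝ) ^ (-(j : ℤ)) * ‖z‖ := by positivity
            linarith
    · push Not at h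
      calc ρ n * ‖x (n + j)‖ ≤ ρ n * ((2 : ℝ) ^ |n + j| * ‖z‖) := by
            have := (ρ_pos n).le
            gcongr
            exact hx1' _
        _ ≤ 2 ^ (-(j : ℤ)) * ‖z‖ := by
            unfold ρ
            apply e1 n
            rw [abs_of_neg h, abs_of_neg (by linarith)]
            linarith
        _ ≤ (1 + D) * 2 ^ (-(j : ℤ)) * ‖z‖ := by
            have : 0 ≤ (2 : ℝ) ^ (-(j : ℤ)) * ‖z‖ := by positivity
            nlinarith
  have hm2 : ∀ (j : ℕ) (n : ℤ), τ n * ‖p (xm (n + j))‖ ≤ (1 + D) * (1 / 2) ^ j * ‖z‖ := by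
    intro j n
    have hpm : p (xm (n + j)) = p (x (n + j)) := by
      rw [hxm]
      simp only
      split_ifs
      · rw [hg1]
      · rfl
    rw [hpm, ← e2]
    calc τ n * ‖p (x (n + j))‖ ≤ τ n * ((2 : ℝ) ^ (-(n + j)) * ‖z‖) := by
          have := (τ_pos n).le
          gcongr
          exact hx2' _
      _ ≤ 2 ^ (-(j : ℤ)) * ‖z‖ := by
          unfold τ
          apply e1 n
          linarith
      _ ≤ (1 + D) * 2 ^ (-(j : ℤ)) * ‖z‖ := by
          have : 0 ≤ (2 : ℝ) ^ (-(j : ℤ)) * ‖z‖ := by positivity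
          nlinarith
  have hu1 : ∀ (j : ℕ) (n : ℤ), ρ n * ‖xu (n - j)‖ ≤ (1 + D) * (1 / 2) ^ j * ‖z‖ := by
    intro j n
    have hj : (0 : ℤ) ≤ j := Int.natCast_nonneg j
    rw [← e2, hxu]
    simp only
    split_ifs with h
    · have hn : 0 ≤ n := by linarith
      calc ρ n * ‖x (n - j) - g (p (x (n - j)))‖
          ≤ ρ n * ((2 : ℝ) ^ |n - j| * ‖z‖ + D * ((2 : ℝ) ^ (-(n - j)) * ‖z‖)) := by
            have := (ρ_pos n).le
            gcongr
            refine (norm_sub_le _ _).trans ?_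
            exact add_le_add (hx1' _) ((hg2 _).trans (by gcongr; exact hx2' _))
        _ = (2 : ℝ) ^ (-|n|) * (2 ^ |n - j| * ‖z‖)
            + D * ((2 : ℝ) ^ (-|n|) * (2 ^ (-(n - j)) * ‖z‖)) := by unfold ρ; ring
        _ ≤ 2 ^ (-(j : ℤ)) * ‖z‖ + D * (2 ^ (-(j : ℤ)) * ‖z‖) := by
            refine add_le_add (e1 n _ _ _ ?_) (mul_le_mul_of_nonneg_left (e1 n _ _ _ ?_) hD.le)
            · rw [abs_of_nonneg hn, abs_of_nonneg h]
              linarith
            · rw [abs_of_nonneg hn]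
              linarith
        _ = (1 + D) * 2 ^ (-(j : ℤ)) * ‖z‖ := by ring
    · rw [norm_zero, mul_zero]
      positivity
  have hu2 : ∀ (j : ℕ) (n : ℤ), τ n * ‖p (xu (n - j))‖ ≤ (1 + D) * (1 / 2) ^ j * ‖z‖ := by
    intro j n
    have hpu : p (xu (n - j)) = 0 := by
      rw [hxu]
      simp only
      split_ifs
      · rw [map_sub, hg1, sub_self]
      · rw [map_zero]
    rw [hpu, norm_zero, mul_zero]
    positivity
  have hm10 : ∀ n, ρ n * ‖xm n‖ ≤ (1 + D) * (1 / 2) ^ 0 * ‖z‖ := by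
    intro n
    have := hm1 0 n
    rwa [Nat.cast_zero, add_zero] at this
  have hm20 : ∀ n, τ n * ‖p (xm n)‖ ≤ (1 + D) * (1 / 2) ^ 0 * ‖z‖ := by
    intro n
    have := hm2 0 n
    rwa [Nat.cast_zero, add_zero] at this
  have hu10 : ∀ n, ρ n * ‖xu n‖ ≤ (1 + D) * (1 / 2) ^ 0 * ‖z‖ := by
    intro n
    have := hu1 0 n
    rwa [Nat.cast_zero, sub_zero] at this
  have hu20 : ∀ n, τ n * ‖p (xu n)‖ ≤ (1 + D) * (1 / 2) ^ 0 * ‖z‖ := by
    intro n
    have := hu2 0 n
    rwa [Nat.cast_zero, sub_zero] at this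
  obtain ⟨m, hm⟩ := exists_ofSeq p xm _ hm10 hm20
  obtain ⟨u, hu⟩ := exists_ofSeq p xu _ hu10 hu20
  refine ⟨m, u, ?_, ?_, ?_⟩
  · apply seq_injective p
    rw [map_add, hm, hu]
    ext n
    rw [Pi.add_apply, hxm, hxu]
    simp only
    split_ifs
    · rw [hx]; abel
    · rw [hx]; simp
  · intro j
    apply norm_le_of p _ _ (by positivity)
    · intro n
      rw [seq_iterate, hm]
      exact hm1 j n
    · intro n
      rw [seq_iterate, hm]
      exact hm2 j n
  · intro j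
    apply norm_le_of p _ _ (by positivity)
    · intro n
      rw [seq_iterate_symm, hu]
      exact hu1 j n
    · intro n
      rw [seq_iterate_symm, hu]
      exact hu2 j n

/-- Evaluation of the sequence at `n` as a bounded operator. -/
noncomputable def evalCLM (p : E →L[𝕜] F) (n : ℤ) : B p →L[𝕜] E :=
  LinearMap.mkContinuous
    { toFun := fun b => seq p b n
      map_add' := fun a b => by rw [map_add]; rfl
      map_smul' := fun c a => by rw [map_smul]; rfl }
    (ρ n)⁻¹ (fun b => by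
      have := norm_seq_le p b n
      change ‖seq p b n‖ ≤ _
      rw [inv_mul_eq_div, le_div_iff₀ (ρ_pos n), mul_comm]
      exact this)

lemma evalCLM_apply (p : E →L[𝕜] F) (n : ℤ) (b : B p) : evalCLM p n b = seq p b n := rfl

lemma exists_single (p : E →L[𝕜] F) (k : ℤ) (x : E) : ∃ b : B p, seq p b = Pi.single k x := by
  apply exists_ofSeq p (Pi.single k x) (max (ρ k * ‖x‖) (τ k * ‖p x‖))
  · intro n
    by_cases h : n = k
    · subst h; simp
    · rw [Pi.single_eq_of_ne h, norm_zero, mul_zero]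
      exact le_max_of_le_left (mul_nonneg (ρ_pos _).le (norm_nonneg _))
  · intro n
    by_cases h : n = k
    · subst h; simp
    · rw [Pi.single_eq_of_ne h, map_zero, norm_zero, mul_zero]
      exact le_max_of_le_left (mul_nonneg (ρ_pos _).le (norm_nonneg _))

/-- The element of `B` supported at `k`. -/
noncomputable def single (p : E →L[𝕜] F) (k : ℤ) (x : E) : B p := (exists_single p k x).choose

lemma seq_single (p : E →L[𝕜] F) (k : ℤ) (x : E) : seq p (single p k x) = Pi.single k x :=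
  (exists_single p k x).choose_spec

lemma norm_single_le (p : E →L[𝕜] F) (k : ℤ) (x : E) (C : ℝ) (h1 : ρ k * ‖x‖ ≤ C)
    (h2 : τ k * ‖p x‖ ≤ C) : ‖single p k x‖ ≤ C := by
  have hC : 0 ≤ C := (mul_nonneg (ρ_pos _).le (norm_nonneg _)).trans h1
  apply norm_le_of p _ _ hC
  · intro n
    rw [seq_single]
    by_cases h : n = k
    · subst h; simpa using h1
    · rw [Pi.single_eq_of_ne h, norm_zero, mul_zero]
      exact hC
  · intro n
    rw [seq_single]
    by_cases h : n = k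
    · subst h; simpa using h2
    · rw [Pi.single_eq_of_ne h, map_zero, norm_zero, mul_zero]
      exact hC

/-- `single` as a bounded operator. -/
noncomputable def singleCLM (p : E →L[𝕜] F) (k : ℤ) : E →L[𝕜] B p :=
  LinearMap.mkContinuous
    { toFun := single p k
      map_add' := fun a b => by
        apply seq_injective p
        rw [map_add, seq_single, seq_single, seq_single, Pi.single_add]
      map_smul' := fun c a => by
        apply seq_injective p
        rw [map_smul, seq_single, seq_single, RingHom.id_apply, Pi.single_smul] }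
    (ρ k + τ k * ‖p‖) (fun x => by
      apply norm_single_le
      · rw [add_mul]
        have : 0 ≤ τ k * ‖p‖ * ‖x‖ :=
          mul_nonneg (mul_nonneg (τ_pos _).le (norm_nonneg _)) (norm_nonneg _)
        linarith
      · rw [add_mul]
        have h1 : 0 ≤ ρ k * ‖x‖ := mul_nonneg (ρ_pos _).le (norm_nonneg _)
        have h2 : τ k * ‖p x‖ ≤ τ k * ‖p‖ * ‖x‖ := by
          rw [mul_assoc]
          exact mul_le_mul_of_nonneg_left (p.le_opNorm x) (τ_pos _).le
        linarith)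

lemma singleCLM_apply (p : E →L[𝕜] F) (k : ℤ) (x : E) : singleCLM p k x = single p k x := rfl

/-- If the shift operator is generalized hyperbolic then `ker p` is complemented. -/
lemma closedComplemented_of_gh [CompleteSpace E] [CompleteSpace F] (p : E →L[𝕜] F)
    (h : GeneralizedHyperbolic (shiftEquiv p)) :
    (LinearMap.ker (p : E →ₗ[𝕜] F)).ClosedComplemented := by
  have : CompleteSpace (B p) := (isClosed_B p).completeSpace_coe
  obtain ⟨R, hR⟩ := exists_right_inverse (shiftEquiv p) h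
  set U := LinearMap.ker (p : E →ₗ[𝕜] F) with hU
  have hUclosed : IsClosed (U : Set E) := p.isClosed_ker
  have : CompleteSpace U := hUclosed.completeSpace_coe
  -- choose a site `k` far to the right
  obtain ⟨k, hk⟩ : ∃ k : ℕ, ‖R‖ * (1 / 2 : ℝ) ^ k < 1 := by
    have h1 : Tendsto (fun k : ℕ => ‖R‖ * (1 / 2 : ℝ) ^ k) atTop (𝓝 (‖R‖ * 0)) :=
      (tendsto_pow_atTop_nhds_zero_of_lt_one (by norm_num) (by norm_num)).const_mul _
    rw [mul_zero] at h1
    exact (h1.eventually (gt_mem_nhds one_pos)).exists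
  -- the recursion
  have hrec : ∀ (x : E) (n : ℤ), seq p (R (single p k x)) (n + 1) - seq p (R (single p k x)) n
      = (Pi.single (k : ℤ) x : ℤ → E) n := by
    intro x n
    have h1 := hR (single p k x)
    have h2 := congrArg (fun b : B p => seq p b n) h1
    simp only [map_sub, Pi.sub_apply, seq_shiftEquiv, seq_single] at h2
    exact h2
  have hright : ∀ (x : E) (j : ℕ), seq p (R (single p k x)) (k + 1 + j)
      = seq p (R (single p k x)) (k + 1) := by
    intro x j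
    induction j with
    | zero => simp
    | succ j ih =>
      have h1 := hrec x (k + 1 + j)
      rw [Pi.single_eq_of_ne (by omega), sub_eq_zero] at h1
      rw [← ih, ← h1, show (k : ℤ) + 1 + ((j + 1 : ℕ) : ℤ) = k + 1 + j + 1 by push_cast; ring]
  have hleft : ∀ (x : E) (j : ℕ), seq p (R (single p k x)) (k - j)
      = seq p (R (single p k x)) k := by
    intro x j
    induction j with
    | zero => simp
    | succ j ih =>
      have h1 := hrec x (k - ((j + 1 : ℕ) : ℤ))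
      rw [Pi.single_eq_of_ne (by push_cast; omega), sub_eq_zero,
        show (k : ℤ) - ((j + 1 : ℕ) : ℤ) + 1 = k - j by push_cast; ring] at h1
      rw [← ih, ← h1]
  -- the value to the right lies in `U`
  have hmem : ∀ x : E, seq p (R (single p k x)) (k + 1) ∈ U := by
    intro x
    rw [hU, LinearMap.mem_ker]
    set v := seq p (R (single p k x)) (k + 1) with hv
    change p v = 0
    by_contra hne
    have hpos : 0 < ‖p v‖ := norm_pos_iff.mpr hne
    have hb : ∀ j : ℕ, (2 : ℝ) ^ j * ‖p v‖ ≤ ‖R (single p k x)‖ := by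
      intro j
      have h1 := norm_p_seq_le p (R (single p k x)) (k + 1 + j)
      rw [hright] at h1
      refine le_trans ?_ h1
      rw [← hv]
      apply mul_le_mul_of_nonneg_right _ (norm_nonneg _)
      unfold τ
      rw [← zpow_natCast]
      exact zpow_le_zpow_right₀ (by norm_num) (by omega)
    obtain ⟨j, hj⟩ := pow_unbounded_of_one_lt (‖R (single p k x)‖ / ‖p v‖) (one_lt_two)
    rw [div_lt_iff₀ hpos] at hj
    exact absurd (hb j) (not_le.mpr hj)
  -- the operator `Q : E → U`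
  set Q : E →L[𝕜] U := ContinuousLinearMap.codRestrict
    ((evalCLM p (k + 1)).comp (R.comp (singleCLM p k))) U (fun x => hmem x) with hQ
  have hQapp : ∀ x : E, ((Q x : U) : E) = seq p (R (single p k x)) (k + 1) := fun x => rfl
  -- on `U` it is close to the identity
  set G : U →L[𝕜] U := Q.comp U.subtypeL with hG
  have hGnorm : ‖1 - G‖ < 1 := by
    refine lt_of_le_of_lt (ContinuousLinearMap.opNorm_le_bound _ (by positivity) ?_) hk
    intro u
    have hpu : p (u : E) = 0 := u.2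
    have h1 : ((((1 : U →L[𝕜] U) - G) u : U) : E) = - seq p (R (single p k (u : E))) 0 := by
      have h2 := hrec (u : E) k
      rw [Pi.single_eq_same] at h2
      have h3 := hleft (u : E) k
      rw [sub_self] at h3
      have h4 : ((((1 : U →L[𝕜] U) - G) u : U) : E) = (u : E) - ((Q (u : E) : U) : E) := rfl
      rw [h4, hQapp, h3]
      rw [sub_eq_iff_eq_add] at h2
      rw [h2]
      abel
    have h5 : ‖(((1 : U →L[𝕜] U) - G) u : U)‖ = ‖((((1 : U →L[𝕜] U) - G) u : U) : E)‖ := rfl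
    rw [h5, h1, norm_neg]
    have h6 := norm_seq_le p (R (single p k (u : E))) 0
    have h7 : ρ 0 = 1 := by simp [ρ]
    rw [h7, one_mul] at h6
    have h8 : ‖single p k (u : E)‖ ≤ (1 / 2 : ℝ) ^ k * ‖u‖ := by
      apply norm_single_le
      · apply le_of_eq
        congr 1
        unfold ρ
        rw [abs_of_nonneg (by positivity), zpow_neg, zpow_natCast, one_div, inv_pow]
      · rw [hpu, norm_zero, mul_zero]
        positivity
    calc ‖seq p (R (single p k (u : E))) 0‖ ≤ ‖R (single p k (u : E))‖ := h6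
      _ ≤ ‖R‖ * ‖single p k (u : E)‖ := R.le_opNorm _
      _ ≤ ‖R‖ * ((1 / 2 : ℝ) ^ k * ‖u‖) := by gcongr
      _ = ‖R‖ * (1 / 2 : ℝ) ^ k * ‖u‖ := by ring
  have hGunit : IsUnit G := by
    have := (Units.oneSub (1 - G) hGnorm).isUnit
    simpa using this
  obtain ⟨g, hg⟩ := hGunit
  refine ⟨((g⁻¹ : (U →L[𝕜] U)ˣ) : U →L[𝕜] U).comp Q, ?_⟩
  intro u
  have h1 : ((g⁻¹ : (U →L[𝕜] U)ˣ) : U →L[𝕜] U) * G = 1 := by rw [← hg]; exact g.inv_mul
  exact congrArg (fun L : U →L[𝕜] U => L u) h1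

/-- The data of a shift operator on `B`, with `S n = id` for all `n`. -/
noncomputable def shiftOperator (p : E →L[𝕜] F) : ShiftOperator 𝕜 E (B p) where
  S := fun _ => ContinuousLinearEquiv.refl 𝕜 E
  S_bound := ⟨1, fun n => ⟨ContinuousLinearMap.norm_id_le, ContinuousLinearMap.norm_id_le⟩⟩
  seq := seq p
  seq_injective := seq_injective p
  σ := shiftEquiv p
  σ_apply := fun b n => seq_shiftEquiv p b n

end Construction

section Phillips

variable (𝕜 : Type) [RCLike 𝕜]

/-- The subspace `c_0` of `ℓ^∞(ℕ, 𝕜)`. -/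
def c0 : Submodule 𝕜 (ℕ →ᵇ 𝕜) where
  carrier := {a | Tendsto a atTop (𝓝 0)}
  add_mem' := by
    intro a b ha hb
    have := Tendsto.add ha hb
    rw [add_zero] at this
    exact this
  zero_mem' := tendsto_const_nhds
  smul_mem' := by
    intro c a ha
    have := Tendsto.const_smul ha c
    rw [smul_zero] at this
    exact this

lemma mem_c0 (a : ℕ →ᵇ 𝕜) : a ∈ c0 𝕜 ↔ Tendsto a atTop (𝓝 0) := Iff.rfl

lemma isClosed_c0 : IsClosed (c0 𝕜 : Set (ℕ →ᵇ 𝕜)) := by
  rw [← isSeqClosed_iff_isClosed]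
  intro u a hu hua
  rw [SetLike.mem_coe, mem_c0, Metric.tendsto_atTop]
  intro ε hε
  rw [Metric.tendsto_atTop] at hua
  obtain ⟨N, hN⟩ := hua (ε / 2) (by positivity)
  have h1 := hu N
  rw [SetLike.mem_coe, mem_c0, Metric.tendsto_atTop] at h1
  obtain ⟨M, hM⟩ := h1 (ε / 2) (by positivity)
  refine ⟨M, fun n hn => ?_⟩
  calc dist (a n) 0 ≤ dist (a n) (u N n) + dist (u N n) 0 := dist_triangle _ _ _
    _ < ε / 2 + ε / 2 := by
        apply add_lt_add
        · rw [dist_comm]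
          exact lt_of_le_of_lt (BoundedContinuousFunction.dist_coe_le_dist n) (hN N le_rfl)
        · exact hM n hn
    _ = ε := by ring

/-- An almost disjoint family of infinite subsets of `ℕ`, indexed by `ℕ → Bool`. -/
def ad (f : ℕ → Bool) : Set ℕ := Set.range fun n : ℕ => Encodable.encode ((List.range n).map f)

lemma ad_infinite (f : ℕ → Bool) : (ad f).Infinite := by
  apply Set.infinite_range_of_injective
  intro m n h
  have h1 := Encodable.encode_injective h
  have h2 := congrArg List.length h1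
  simpa using h2

lemma ad_inter_finite (f g : ℕ → Bool) (hfg : f ≠ g) : (ad f ∩ ad g).Finite := by
  obtain ⟨k, hk⟩ := Function.ne_iff.mp hfg
  apply Set.Finite.subset
    ((Finset.range (k + 1)).image fun n => Encodable.encode ((List.range n).map f)).finite_toSet
  rintro x ⟨⟨m, hm⟩, ⟨n, hn⟩⟩
  simp only at hm hn
  rw [← hn] at hm
  have h1 := Encodable.encode_injective hm
  have h2 : m = n := by simpa using congrArg List.length h1
  subst h2
  simp only [Finset.coe_image, Set.mem_image, Finset.mem_coe, Finset.mem_range]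
  refine ⟨m, ?_, by rw [← hn, h1]⟩
  by_contra hcon
  push Not at hcon
  apply hk
  rw [List.map_inj_left] at h1
  exact h1 k (List.mem_range.mpr (by omega))

open Classical in
/-- The indicator function of `ad f`. -/
noncomputable def chi (f : ℕ → Bool) : ℕ →ᵇ 𝕜 :=
  BoundedContinuousFunction.ofNormedAddCommGroup (fun n => if n ∈ ad f then (1 : 𝕜) else 0)
    continuous_of_discreteTopology 1 (fun n => by split_ifs <;> simp)

open Classical in
lemma chi_apply (f : ℕ → Bool) (n : ℕ) : chi 𝕜 f n = if n ∈ ad f then (1 : 𝕜) else 0 := rfl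

lemma chi_not_mem (f : ℕ → Bool) : chi 𝕜 f ∉ c0 𝕜 := by
  classical
  intro h
  rw [mem_c0] at h
  have h1 := h.eventually (Metric.ball_mem_nhds 0 one_pos)
  rw [eventually_atTop] at h1
  obtain ⟨N, hN⟩ := h1
  obtain ⟨n, hn, hnN⟩ := (ad_infinite f).exists_gt N
  have h2 := hN n hnN.le
  rw [chi_apply, if_pos hn] at h2
  simp at h2

lemma bound_combination (L : (ℕ →ᵇ 𝕜) →L[𝕜] (ℕ →ᵇ 𝕜)) (hL : ∀ a ∈ c0 𝕜, L a = 0)
    (s : Finset (ℕ → Bool)) (c : (ℕ → Bool) → 𝕜) (hc : ∀ f, ‖c f‖ ≤ 1) :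
    ‖L (∑ f ∈ s, c f • chi 𝕜 f)‖ ≤ ‖L‖ := by
  classical
  set x := ∑ f ∈ s, c f • chi 𝕜 f with hx
  have hxapp : ∀ n, x n = ∑ f ∈ s, c f * chi 𝕜 f n := by
    intro n
    rw [hx, BoundedContinuousFunction.coe_sum, Finset.sum_apply]
    rfl
  -- beyond `N` the supports are disjoint
  obtain ⟨N, hN⟩ : ∃ N : ℕ, ∀ n, N ≤ n → ∀ f ∈ s, ∀ g ∈ s, f ≠ g → ¬ (n ∈ ad f ∧ n ∈ ad g) := by
    have hfin : (⋃ f ∈ s, ⋃ g ∈ s, {n | f ≠ g ∧ n ∈ ad f ∧ n ∈ ad g}).Finite := by
      refine Set.Finite.biUnion s.finite_toSet fun f _ => Set.Finite.biUnion s.finite_toSet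
        fun g _ => ?_
      by_cases hfg : f = g
      · simp [hfg]
      · exact (ad_inter_finite f g hfg).subset fun n hn => hn.2
    obtain ⟨N, hN⟩ := hfin.bddAbove
    refine ⟨N + 1, fun n hn f hf g hg hfg hcon => ?_⟩
    have : n ∈ ⋃ f ∈ s, ⋃ g ∈ s, {n | f ≠ g ∧ n ∈ ad f ∧ n ∈ ad g} := by
      simp only [Set.mem_iUnion]
      exact ⟨f, hf, g, hg, hfg, hcon⟩
    have := hN this
    omega
  have hbound : ∀ n, N ≤ n → ‖x n‖ ≤ 1 := by
    intro n hn
    rw [hxapp]
    by_cases hex : ∃ f ∈ s, n ∈ ad f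
    · obtain ⟨f, hf, hnf⟩ := hex
      rw [Finset.sum_eq_single f]
      · rw [chi_apply, if_pos hnf, mul_one]
        exact hc f
      · intro g hg hgf
        have : n ∉ ad g := fun h => hN n hn f hf g hg (Ne.symm hgf) ⟨hnf, h⟩
        rw [chi_apply, if_neg this, mul_zero]
      · intro h; exact absurd hf h
    · push Not at hex
      rw [Finset.sum_eq_zero]
      · simp
      · intro f hf
        rw [chi_apply, if_neg (hex f hf), mul_zero]
  set x1 : ℕ →ᵇ 𝕜 := BoundedContinuousFunction.ofNormedAddCommGroup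
    (fun n => if N ≤ n then x n else 0) continuous_of_discreteTopology 1 (fun n => by
      split_ifs with h
      · exact hbound n h
      · simp) with hx1
  have hx1norm : ‖x1‖ ≤ 1 := BoundedContinuousFunction.norm_ofNormedAddCommGroup_le _ zero_le_one _
  have hdiff : x - x1 ∈ c0 𝕜 := by
    rw [mem_c0]
    apply tendsto_const_nhds.congr'
    filter_upwards [eventually_ge_atTop N] with n hn
    have : (x - x1) n = x n - (if N ≤ n then x n else 0) := rfl
    rw [this, if_pos hn, sub_self]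
  have : L x = L x1 := by
    have := hL _ hdiff
    rw [map_sub, sub_eq_zero] at this
    exact this
  rw [this]
  calc ‖L x1‖ ≤ ‖L‖ * ‖x1‖ := L.le_opNorm _
    _ ≤ ‖L‖ * 1 := by gcongr
    _ = ‖L‖ := mul_one _

/-- Phillips' theorem: `c_0` is not complemented in `ℓ^∞` (Whitley's proof). -/
theorem c0_not_complemented : ¬ (c0 𝕜).ClosedComplemented := by
  classical
  rintro ⟨P, hP⟩
  set L : (ℕ →ᵇ 𝕜) →L[𝕜] (ℕ →ᵇ 𝕜) :=
    ContinuousLinearMap.id 𝕜 _ - (c0 𝕜).subtypeL.comp P with hLdef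
  have hLapp : ∀ a, L a = a - ((P a : c0 𝕜) : ℕ →ᵇ 𝕜) := fun a => rfl
  have hL : ∀ a ∈ c0 𝕜, L a = 0 := by
    intro a ha
    rw [hLapp, hP ⟨a, ha⟩, sub_self]
  have hL' : ∀ a, L a = 0 → a ∈ c0 𝕜 := by
    intro a ha
    rw [hLapp, sub_eq_zero] at ha
    rw [ha]
    exact (P a).2
  have hcount : ∀ n : ℕ, (Function.support fun f : ℕ → Bool => ‖(L (chi 𝕜 f)) n‖).Countable := by
    intro n
    apply Summable.countable_support
    apply summable_of_sum_le (c := ‖L‖) (fun f => norm_nonneg _)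
    intro s
    -- unimodular coefficients
    set c : (ℕ → Bool) → 𝕜 := fun f =>
      if (L (chi 𝕜 f)) n = 0 then 0 else
        ((‖(L (chi 𝕜 f)) n‖ : ℝ) : 𝕜) / (L (chi 𝕜 f)) n with hc
    have hcn : ∀ f, ‖c f‖ ≤ 1 := by
      intro f
      rw [hc]
      simp only
      split_ifs with h
      · simp
      · rw [norm_div, RCLike.norm_ofReal, abs_norm, div_self (norm_ne_zero_iff.mpr h)]
    have hcm : ∀ f, c f * (L (chi 𝕜 f)) n = ((‖(L (chi 𝕜 f)) n‖ : ℝ) : 𝕜) := by
      intro f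
      rw [hc]
      simp only
      split_ifs with h
      · rw [h]; simp
      · rw [div_mul_cancel₀ _ h]
    have h1 := bound_combination 𝕜 L hL s c hcn
    have h2 : ((∑ f ∈ s, ‖(L (chi 𝕜 f)) n‖ : ℝ) : 𝕜) = (L (∑ f ∈ s, c f • chi 𝕜 f)) n := by
      rw [map_sum, BoundedContinuousFunction.coe_sum, Finset.sum_apply, RCLike.ofReal_sum]
      refine Finset.sum_congr rfl fun f _ => ?_
      rw [map_smul]
      exact (hcm f).symm
    have h3 : ∑ f ∈ s, ‖(L (chi 𝕜 f)) n‖ = ‖(L (∑ f ∈ s, c f • chi 𝕜 f)) n‖ := by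
      rw [← h2, RCLike.norm_ofReal, abs_of_nonneg]
      exact Finset.sum_nonneg fun f _ => norm_nonneg _
    rw [h3]
    exact (BoundedContinuousFunction.norm_coe_le_norm _ n).trans h1
  have huniv : (Set.univ : Set (ℕ → Bool))
      = ⋃ n : ℕ, (Function.support fun f : ℕ → Bool => ‖(L (chi 𝕜 f)) n‖) := by
    ext f
    simp only [Set.mem_univ, Set.mem_iUnion, Function.mem_support, true_iff]
    by_contra hcon
    push Not at hcon
    apply chi_not_mem 𝕜 f
    apply hL'
    ext n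
    have := hcon n
    rw [norm_eq_zero] at this
    rw [this]; rfl
  have hunc : ¬ (Set.univ : Set (ℕ → Bool)).Countable := by
    rw [Set.countable_univ_iff]
    intro hcountable
    obtain ⟨e, he⟩ := exists_surjective_nat (ℕ → Bool)
    obtain ⟨n, hn⟩ := he (fun n => !(e n n))
    have := congrFun hn n
    simp at this
  apply hunc
  rw [huniv]
  exact Set.countable_iUnion hcount

end Phillips

/-- **Disproof of Q1.** Over `𝕜 = ℝ` and over `𝕜 = ℂ` there are a Banach space `X`, a Banach space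
`B` of bilateral `X`-valued sequences (with continuous coordinate maps, and containing every finitely
supported sequence) and a shift operator `σ_S : B → B` which has the
shadowing property but is not generalized hyperbolic. -/
theorem result (𝕜 : Type) [RCLike 𝕜] :
    ∃ (X : Type) (_ : NormedAddCommGroup X) (_ : NormedSpace 𝕜 X) (_ : CompleteSpace X)
      (B : Type) (_ : NormedAddCommGroup B) (_ : NormedSpace 𝕜 B) (_ : CompleteSpace B)
      (O : ShiftOperator 𝕜 X B),
      (∀ n : ℤ, Continuous fun b : B => O.seq b n) ∧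
      (∀ x : ℤ → X, (Function.support x).Finite → ∃ b : B, O.seq b = x) ∧
      HasShadowing O.σ ∧ ¬ GeneralizedHyperbolic O.σ := by
  have hcl : IsClosed (c0 𝕜 : Set (ℕ →ᵇ 𝕜)) := isClosed_c0 𝕜
  set p : (ℕ →ᵇ 𝕜) →L[𝕜] ((ℕ →ᵇ 𝕜) ⧸ c0 𝕜) := (c0 𝕜).mkQL with hp
  refine ⟨ℕ →ᵇ 𝕜, inferInstance, inferInstance, inferInstance, B p, inferInstance, inferInstance,
    (isClosed_B p).completeSpace_coe, shiftOperator p, ?_, ?_, ?_, ?_⟩
  · intro n
    exact (evalCLM p n).continuous
  · intro x hx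
    have h1 : ∀ n, 0 ≤ ρ n * ‖x n‖ := fun n => mul_nonneg (ρ_pos n).le (norm_nonneg _)
    have h2 : ∀ n, 0 ≤ τ n * ‖p (x n)‖ := fun n => mul_nonneg (τ_pos n).le (norm_nonneg _)
    have h3 : ∀ n ∉ hx.toFinset, x n = 0 := by
      intro n hn
      rw [Set.Finite.mem_toFinset, Function.mem_support, not_not] at hn
      exact hn
    apply exists_ofSeq p x (∑ n ∈ hx.toFinset, (ρ n * ‖x n‖ + τ n * ‖p (x n)‖))
    · intro n
      by_cases hn : n ∈ hx.toFinset
      · calc ρ n * ‖x n‖ ≤ ρ n * ‖x n‖ + τ n * ‖p (x n)‖ := le_add_of_nonneg_right (h2 n)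
          _ ≤ _ := Finset.single_le_sum (f := fun n => ρ n * ‖x n‖ + τ n * ‖p (x n)‖)
              (fun i _ => add_nonneg (h1 i) (h2 i)) hn
      · rw [h3 n hn, norm_zero, mul_zero]
        exact Finset.sum_nonneg fun i _ => add_nonneg (h1 i) (h2 i)
    · intro n
      by_cases hn : n ∈ hx.toFinset
      · calc τ n * ‖p (x n)‖ ≤ ρ n * ‖x n‖ + τ n * ‖p (x n)‖ := le_add_of_nonneg_left (h1 n)
          _ ≤ _ := Finset.single_le_sum (f := fun n => ρ n * ‖x n‖ + τ n * ‖p (x n)‖)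
              (fun i _ => add_nonneg (h1 i) (h2 i)) hn
      · rw [h3 n hn, map_zero, norm_zero, mul_zero]
        exact Finset.sum_nonneg fun i _ => add_nonneg (h1 i) (h2 i)
  · exact hasShadowing_shift p (Submodule.mkQ_surjective _)
  · intro h
    have h1 := closedComplemented_of_gh p h
    have h2 : LinearMap.ker (p : (ℕ →ᵇ 𝕜) →ₗ[𝕜] ((ℕ →ᵇ 𝕜) ⧸ c0 𝕜)) = c0 𝕜 :=
      Submodule.ker_mkQ _
    rw [h2] at h1
    exact c0_not_complemented 𝕜 h1

end Pool.Agent.Results.MP_0764b2_an.ShadowingNotGH
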